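import Mathlib
import Pool.Agent.Y734.R.Stms
import Pool.Agent.Helper745.FS.B3

/-!
# Job COMB of the project Y734/R

Two systems of `r` ultrametrics on many points whose products are ordered in opposite ways are
trivial.
-/

set_option autoImplicit false

namespace Pool.Agent.Y734.R.COMB

open Finset Pool.Agent.Y734.M Pool.Agent.Y734.R

/-- a finite family of ultrametrics on many points, for which every triangle with a side which is
nowhere the shortest one is equilateral, is trivial -/
theorem core (S : Type) [Fintype S] : ∃ m₀ : ℕ, ∀ m, m₀ ≤ m → ∀ (Γ : S → Type)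
    [∀ s, LinearOrder (Γ s)] (d : ∀ s, Fin m → Fin m → Γ s),
    (∀ s i j, d s i j = d s j i) →
    (∀ s i j l, d s i l ≤ max (d s i j) (d s j l)) →
    (∀ i j l, i ≠ j → j ≠ l → i ≠ l → (∀ s, d s i j ≤ d s i l) → (∀ s, d s j l ≤ d s i l) →
      ∀ s, d s i j = d s i l ∧ d s j l = d s i l) →
    ∀ s i j a b, i ≠ j → a ≠ b → d s i j = d s a b := by
  classical
  obtain ⟨N, hN⟩ := Pool.Agent.Helper745.FSub.ramsey5_gen (S → Bool) 3 (Fintype.card S + 4)
  refine ⟨N + 1, fun m hm Γ _ d hsym hult hstar => ?_⟩
  set e : ℕ → Fin m := fun n => if h : n < m then ⟨n, h⟩ else ⟨0, by omega⟩ with he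
  have hee : ∀ x : Fin m, e x.val = x := by
    intro x
    simp [he, x.2]
  obtain ⟨T₀, hTS, hTc, k, hk⟩ := hN (range m) (fun l => match l with
    | [a, _, c] => fun s => decide (d s (e a) (e c) < d s (e a) (e (l.getD 1 0)))
    | _ => fun _ => false) (by rw [card_range]; omega)
  set T : Finset (Fin m) := univ.filter (fun x => x.val ∈ T₀) with hT
  have hTT : ∀ x, x ∈ T ↔ x.val ∈ T₀ := by
    intro x
    rw [hT, mem_filter]
    simp
  have hTcard : T.card = Fintype.card S + 4 := by
    rw [← hTc]
    refine card_bij (fun x _ => x.val) ?_ ?_ ?_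
    · intro x hx
      exact (hTT x).1 hx
    · intro x _ y _ h
      exact Fin.ext h
    · intro n hn
      have hnm : n < m := mem_range.1 (hTS hn)
      exact ⟨⟨n, hnm⟩, (hTT _).2 hn, rfl⟩
  have hcol : ∀ a b c : Fin m, a ∈ T → b ∈ T → c ∈ T → a < b → b < c →
      ∀ s, (decide (d s a c < d s a b)) = k s := by
    intro a b c ha hb hc hab hbc s
    have h1 := hk [a.val, b.val, c.val] rfl (by
      have h2 : a.val < b.val := hab
      have h3 : b.val < c.val := hbc
      simp only [List.pairwise_cons, List.mem_cons, List.not_mem_nil, or_false, forall_eq_or_imp,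
        forall_eq, List.Pairwise.nil, and_true, false_imp_iff, imp_true_iff]
      exact ⟨⟨h2, h2.trans h3⟩, h3⟩) (by
      intro x hx
      simp only [List.mem_cons, List.not_mem_nil, or_false] at hx
      rcases hx with rfl | rfl | rfl
      · exact (hTT _).1 ha
      · exact (hTT _).1 hb
      · exact (hTT _).1 hc)
    have h4 := congrFun h1 s
    simpa [hee] using h4
  -- the long side is never the shortest
  have hkf : ∀ s, k s = false := by
    intro s
    by_contra hcon
    have hkt : k s = true := by simpa using hcon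
    set f := T.orderEmbOfFin hTcard with hf
    set y1 := f ⟨0, by omega⟩
    set y2 := f ⟨1, by omega⟩
    set y3 := f ⟨2, by omega⟩
    set y4 := f ⟨3, by omega⟩
    have m1 : y1 ∈ T := orderEmbOfFin_mem _ _ _
    have m2 : y2 ∈ T := orderEmbOfFin_mem _ _ _
    have m3 : y3 ∈ T := orderEmbOfFin_mem _ _ _
    have m4 : y4 ∈ T := orderEmbOfFin_mem _ _ _
    have l12 : y1 < y2 := f.strictMono (by rw [Fin.mk_lt_mk]; omega)
    have l23 : y2 < y3 := f.strictMono (by rw [Fin.mk_lt_mk]; omega)
    have l34 : y3 < y4 := f.strictMono (by rw [Fin.mk_lt_mk]; omega)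
    have c123 := hcol y1 y2 y3 m1 m2 m3 l12 l23 s
    have c234 := hcol y2 y3 y4 m2 m3 m4 l23 l34 s
    have c124 := hcol y1 y2 y4 m1 m2 m4 l12 (l23.trans l34) s
    rw [hkt, decide_eq_true_iff] at c123 c234 c124
    -- d12 = d23
    have u1 : d s y1 y2 ≤ max (d s y1 y3) (d s y3 y2) := hult s y1 y3 y2
    have u2 : d s y2 y3 ≤ max (d s y2 y1) (d s y1 y3) := hult s y2 y1 y3
    have u3 : d s y1 y2 ≤ max (d s y1 y4) (d s y4 y2) := hult s y1 y4 y2
    have u4 : d s y1 y2 ≤ d s y3 y2 := by
      rcases le_max_iff.1 u1 with h | h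
      · exact absurd h (not_le.2 c123)
      · exact h
    have u5 : d s y2 y3 ≤ d s y1 y2 := by
      rcases le_max_iff.1 u2 with h | h
      · rwa [hsym s y2 y1] at h
      · exact h.trans c123.le
    have u6 : d s y1 y2 ≤ d s y4 y2 := by
      rcases le_max_iff.1 u3 with h | h
      · exact absurd h (not_le.2 c124)
      · exact h
    rw [hsym s y4 y2] at u6
    exact absurd (u5.trans u6) (not_le.2 c234)
  -- triples of `T`
  have htri : ∀ a b c : Fin m, a ∈ T → b ∈ T → c ∈ T → a < b → b < c →
      ∀ s, d s a b = d s a c ∧ d s b c = d s a c := by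
    intro a b c ha hb hc hab hbc
    have h1 : ∀ s, d s a b ≤ d s a c := by
      intro s
      have h2 := hcol a b c ha hb hc hab hbc s
      rw [hkf s, decide_eq_false_iff_not, not_lt] at h2
      exact h2
    refine hstar a b c hab.ne hbc.ne (hab.trans hbc).ne h1 (fun s => ?_)
    have h3 := hult s b a c
    rw [hsym s b a, max_eq_right (h1 s)] at h3
    exact h3
  have hst : ∀ s a b c, a ∈ T → b ∈ T → c ∈ T → a ≠ b → a ≠ c → d s a b = d s a c := by
    intro s a b c ha hb hc hab hac
    rcases lt_trichotomy b c with h | h | h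
    · rcases lt_or_gt_of_ne hab with h1 | h1
      · exact (htri a b c ha hb hc h1 h s).1
      · rcases lt_or_gt_of_ne hac with h2 | h2
        · -- b < a < c
          have h3 := htri b a c hb ha hc h1 h2 s
          rw [hsym s a b, h3.1, h3.2]
        · -- b < c < a
          have h3 := htri b c a hb hc ha h h2 s
          rw [hsym s a b, hsym s a c, h3.2]
    · rw [h]
    · rcases lt_or_gt_of_ne hac with h1 | h1
      · exact (htri a c b ha hc hb h1 h s).1.symm
      · rcases lt_or_gt_of_ne hab with h2 | h2
        · -- c < a < b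
          have h3 := htri c a b hc ha hb h1 h2 s
          rw [hsym s a c, h3.1, h3.2]
        · -- c < b < a
          have h3 := htri c b a hc hb ha h h2 s
          rw [hsym s a b, hsym s a c, h3.2]
  -- the property of being totally equilateral
  set E : Finset (Fin m) → Prop := fun M => Fintype.card S + 4 ≤ M.card ∧
    ∀ s, ∃ D : Γ s, ∀ a ∈ M, ∀ b ∈ M, a ≠ b → d s a b = D with hE
  have hET : E T := by
    refine ⟨hTcard.ge, fun s => ?_⟩
    obtain ⟨p, hp, q, hq, hpq⟩ := one_lt_card.1 (show 1 < T.card by omega)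
    refine ⟨d s p q, fun a ha b hb hab => ?_⟩
    by_cases hap : a = p
    · subst hap
      exact hst s a b q ha hb hq hab hpq
    · rw [hst s a b p ha hb hp hab hap, hsym s a p]
      exact hst s p a q hp ha hq (Ne.symm hap) hpq
  obtain ⟨M, hMT, hM⟩ := (Set.toFinite {M : Finset (Fin m) | E M}).exists_le_maximal hET
  have hMu : ∀ x, x ∈ M := by
    intro x
    by_contra hx
    have hEM : E M := hM.1
    obtain ⟨hMc, hMD⟩ := hEM
    choose D hD using hMD
    have hbad : (univ.biUnion fun s => M.filter fun a => d s x a < D s).card ≤ Fintype.card S := by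
      refine card_biUnion_le.trans ?_
      calc ∑ s : S, (M.filter fun a => d s x a < D s).card ≤ ∑ _s : S, 1 := by
            refine sum_le_sum fun s _ => card_le_one.2 fun a ha b hb => ?_
            rw [mem_filter] at ha hb
            by_contra hab
            have h1 := hD s a ha.1 b hb.1 hab
            have h2 := hult s a x b
            rw [h1, hsym s a x] at h2
            rcases le_max_iff.1 h2 with h3 | h3
            · exact absurd h3 (not_le.2 ha.2)
            · exact absurd h3 (not_le.2 hb.2)
        _ = Fintype.card S := by simp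
    obtain ⟨a, haM, ha⟩ : ∃ a ∈ M, a ∉ univ.biUnion fun s => M.filter fun a => d s x a < D s := by
      by_contra hcon
      push Not at hcon
      have := card_le_card (show M ⊆ _ from hcon)
      omega
    have ha' : ∀ s, D s ≤ d s x a := by
      intro s
      by_contra hcon
      exact ha (mem_biUnion.2 ⟨s, mem_univ _, mem_filter.2 ⟨haM, not_le.1 hcon⟩⟩)
    have hxa : x ≠ a := fun h => hx (h ▸ haM)
    have hall : ∀ b ∈ M, b ≠ a → ∀ s, d s x b = D s ∧ d s x a = D s := by
      intro b hb hba s
      have hxb : x ≠ b := fun h => hx (h ▸ hb)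
      have h1 : ∀ s, d s b a = D s := fun s => hD s b hb a haM hba
      have h2 : ∀ s, d s x b ≤ d s x a := by
        intro s
        have h3 := hult s x a b
        rw [hsym s a b, h1 s, max_eq_left (ha' s)] at h3
        exact h3
      have h3 := hstar x b a hxb hba hxa h2 (fun s => by rw [h1 s]; exact ha' s) s
      rw [h1 s] at h3
      exact ⟨h3.1.trans h3.2.symm, h3.2.symm⟩
    obtain ⟨b₀, hb₀, hb₀a⟩ := exists_mem_ne (show 1 < M.card by omega) a
    have hDx : ∀ s, ∀ b ∈ M, d s x b = D s := by
      intro s b hb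
      by_cases hba : b = a
      · rw [hba]
        exact (hall b₀ hb₀ hb₀a s).2
      · exact (hall b hb hba s).1
    have hEx : E (insert x M) := by
      refine ⟨?_, fun s => ⟨D s, fun p hp q hq hpq => ?_⟩⟩
      · rw [card_insert_of_notMem hx]
        omega
      · rw [mem_insert] at hp hq
        rcases hp with rfl | hp
        · rcases hq with rfl | hq
          · exact absurd rfl hpq
          · exact hDx s q hq
        · rcases hq with rfl | hq
          · rw [hsym s p q]
            exact hDx s p hp
          · exact hD s p hp q hq hpq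
    have := hM.2 hEx (subset_insert x M)
    exact hx (this (mem_insert_self x M))
  intro s i j a b hij hab
  obtain ⟨D, hD⟩ := hM.1.2 s
  rw [hD i (hMu i) j (hMu j) hij, hD a (hMu a) b (hMu b) hab]

section Prod

variable {r : ℕ} {Γ : Type} [LinearOrderedCommGroupWithZero Γ]

theorem prod_le (f g : Fin r → Γ) (h : ∀ s, f s ≤ g s) : ∏ s, f s ≤ ∏ s, g s :=
  Finset.prod_le_prod (fun s _ => zero_le') (fun s _ => h s)

theorem prod_lt (f g : Fin r → Γ) (h0 : ∀ s, f s ≠ 0) (h : ∀ s, f s ≤ g s) (s₀ : Fin r)
    (hs : f s₀ < g s₀) : ∏ s, f s < ∏ s, g s :=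
  Finset.prod_lt_prod (fun s _ => zero_lt_iff.2 (h0 s)) (fun s _ => h s) ⟨s₀, mem_univ _, hs⟩

end Prod

theorem comb : CombStmt := by
  classical
  intro r
  obtain ⟨m₀, hm₀⟩ := core (Fin r ⊕ Fin r)
  refine ⟨m₀, fun m hm Γ Γ' _ _ δ δ' hδ0 hδ0' hsym hsym' hult hult' hprod => ?_⟩
  have half : ∀ p q t, p ≠ q → p ≠ t → (∀ s, δ s p q ≤ δ s p t) → (∀ s, δ' s p q ≤ δ' s p t) →
      (∀ s, δ s p q = δ s p t) ∧ (∀ s, δ' s p q = δ' s p t) := by
    intro p q t hpq hpt h h'
    constructor
    · intro s
      by_contra hne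
      have h1 := prod_lt (fun s => δ s p q) (fun s => δ s p t) (fun s => hδ0 s p q hpq) h s
        (lt_of_le_of_ne (h s) hne)
      have h2 := (hprod p q t hpq hpt).1 h1
      exact absurd (prod_le _ _ h') (not_le.2 h2)
    · intro s
      by_contra hne
      have h1 := prod_lt (fun s => δ' s p q) (fun s => δ' s p t) (fun s => hδ0' s p q hpq) h' s
        (lt_of_le_of_ne (h' s) hne)
      have h2 := (hprod p t q hpt hpq).2 h1
      exact absurd (prod_le _ _ h) (not_le.2 h2)
  let G : Fin r ⊕ Fin r → Type := fun s => Sum.elim (fun _ => Γ) (fun _ => Γ') s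
  letI : ∀ s, LinearOrder (G s) := fun s => match s with
    | Sum.inl _ => (inferInstance : LinearOrder Γ)
    | Sum.inr _ => (inferInstance : LinearOrder Γ')
  let d : ∀ s, Fin m → Fin m → G s := fun s => match s with
    | Sum.inl s => δ s
    | Sum.inr s => δ' s
  have key := hm₀ m hm G d (by
      rintro (s | s) i j
      · exact hsym s i j
      · exact hsym' s i j) (by
      rintro (s | s) i j l
      · exact hult s i j l
      · exact hult' s i j l) (by
      intro i j l hij hjl hil h1 h2
      have a1 : ∀ s, δ s i j ≤ δ s i l := fun s => h1 (Sum.inl s)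
      have a2 : ∀ s, δ' s i j ≤ δ' s i l := fun s => h1 (Sum.inr s)
      have a3 : ∀ s, δ s j l ≤ δ s i l := fun s => h2 (Sum.inl s)
      have a4 : ∀ s, δ' s j l ≤ δ' s i l := fun s => h2 (Sum.inr s)
      have b1 := half i j l hij hil a1 a2
      have b2 := half l j i hjl.symm hil.symm
        (fun s => by rw [hsym s l j, hsym s l i]; exact a3 s)
        (fun s => by rw [hsym' s l j, hsym' s l i]; exact a4 s)
      rintro (s | s)
      · refine ⟨b1.1 s, ?_⟩
        have := b2.1 s
        rw [hsym s l j, hsym s l i] at this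
        exact this
      · refine ⟨b1.2 s, ?_⟩
        have := b2.2 s
        rw [hsym' s l j, hsym' s l i] at this
        exact this)
  intro s i j a b hij hab
  exact ⟨key (Sum.inl s) i j a b hij hab, key (Sum.inr s) i j a b hij hab⟩

end Pool.Agent.Y734.R.COMB
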